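import Pool.Agent.ODP.Defs2

/-!
# Normalized volumes of klt points (analytic form)

`B` is a normal domain, finite and free over `ℂ[y_1, …, y_n]`; the points of `X = Spec B` are the
homomorphisms `B →ₐ[ℂ] ℂ`.  Log canonical thresholds are defined by the integrability of
`|𝔞|^(-2c)` with respect to the adapted measure `|ω_r|^(2/r)`, where `ω_r` is a local generator of
`𝒪(r K_X)`.
-/

open scoped WithZero ENNReal NNReal
open Pool.Agent.ODP

namespace Pool.Agent.Odp2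

/-- The complex points of `Spec B`. -/
abbrev Pt (B : Type) [CommRing B] [Algebra ℂ B] := B →ₐ[ℂ] ℂ

section

variable {n : ℕ} {B : Type} [CommRing B] [Algebra ℂ B]

instance (x : Pt B) : (RingHom.ker x).IsPrime := RingHom.ker_isPrime _

/-- The map `(y_1, …, y_n) : X → ℂ^n`. -/
def proj (y : Fin n → B) (χ : Pt B) : Fin n → ℂ := fun j => χ (y j)

/-- The integral of `F` over the set `S` of points of `X` with respect to
`|h|^(-2s) |dy_1 ∧ … ∧ dy_n|²`. -/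
noncomputable def integ (y : Fin n → B) (h : B) (s : ℝ) (S : Set (Pt B)) (F : Pt B → ℝ≥0∞) :
    ℝ≥0∞ :=
  ∫⁻ w : Fin n → ℂ, ∑' χ : {χ : Pt B // χ ∈ S ∧ proj y χ = w},
    F χ * ‖(χ : Pt B) h‖ₑ ^ (-(2 * s))

/-- A neighbourhood of the point `x`. -/
def nbhd (x : Pt B) (T : Finset B) (ε : ℝ) : Set (Pt B) := {χ | ∀ b ∈ T, ‖χ b - x b‖ < ε}

/-- `F` is integrable near `x` with respect to `|h|^(-2s) |dy_1 ∧ … ∧ dy_n|²`. -/
def NearInt (y : Fin n → B) (h : B) (s : ℝ) (x : Pt B) (F : Pt B → ℝ≥0∞) : Prop :=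
  ∃ T : Finset B, ∃ ε : ℝ, 0 < ε ∧ integ y h s (nbhd x T ε) F ≠ ⊤

/-- `∑ |g|²`, where `g` runs over the finite set `G`. -/
noncomputable def sq (G : Finset B) (χ : Pt B) : ℝ≥0∞ := ∑ g ∈ G, ‖χ g‖ₑ ^ 2

/-- The log canonical threshold of the ideal `𝔞` at `x` with respect to the measure
`|h|^(-2s) |dy_1 ∧ … ∧ dy_n|²`: the supremum of the `c ≥ 0` such that `|𝔞|^(-2c)` is integrable
near `x`. -/
noncomputable def lct (y : Fin n → B) (h : B) (s : ℝ) (x : Pt B) (𝔞 : Ideal B) : ℝ≥0∞ :=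
  ⨆ (c : ℝ≥0) (_ : ∃ G : Finset B, Ideal.span (G : Set B) = 𝔞 ∧
    NearInt y h s x fun χ => sq G χ ^ (-(c : ℝ))), (c : ℝ≥0∞)

/-- The Hilbert-Samuel multiplicity `lim_k n! dim_ℂ (B / 𝔞^k) / k^n`. -/
noncomputable def mult (n : ℕ) {B : Type} [CommRing B] [Algebra ℂ B] (𝔞 : Ideal B) : ℝ≥0∞ :=
  Filter.limsup (fun k : ℕ => ((n.factorial * colength ℂ (𝔞 ^ k) : ℕ) : ℝ≥0∞) /
    ((k ^ n : ℕ) : ℝ≥0∞)) Filter.atTop

/-- `𝔞` is primary to the maximal ideal of the point `x`. -/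
def IsPrimaryAt {B : Type} [CommRing B] [Algebra ℂ B] (x : Pt B) (𝔞 : Ideal B) : Prop :=
  𝔞 ≤ RingHom.ker x ∧ ∃ N : ℕ, RingHom.ker x ^ N ≤ 𝔞

/-- The normalized volume of `x` with respect to the adapted measure
`|h|^(-2s) |dy_1 ∧ … ∧ dy_n|²`: the infimum of `lct(𝔞)^n mult(𝔞)` over the ideals `𝔞` primary to
the maximal ideal of `x`. -/
noncomputable def nvol (y : Fin n → B) (h : B) (s : ℝ) (x : Pt B) : ℝ≥0∞ :=
  ⨅ (𝔞 : Ideal B) (_ : IsPrimaryAt x 𝔞), lct y h s x 𝔞 ^ n * mult n 𝔞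

/-- `X` is klt at `x`: `|h|^(-2(s+κ)) |dy_1 ∧ … ∧ dy_n|²` has finite mass near `x` for some
`κ > 0`. -/
def IsKltAt (y : Fin n → B) (h : B) (s : ℝ) (x : Pt B) : Prop :=
  ∃ κ : ℝ, 0 < κ ∧ NearInt y h (s + κ) x fun _ => 1

end

/-- `(dy_1 ∧ … ∧ dy_n)^r = h ω_r` for a local generator `ω_r` of `𝒪(r K_X)` at `x`: along every
prime divisor through `x` the order of `h` is `r` times the order of `dy_1 ∧ … ∧ dy_n`. -/
def IsRCanonicalAt (k : Type*) {B K : Type*} [Field k] [CommRing B] [Field K]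
    [Algebra B K] [Algebra k K] {n : ℕ} (x : Ideal B) (y : Fin n → K) (r : ℕ) (h : K) : Prop :=
  h ≠ 0 ∧ ∀ v : Valuation K ℤᵐ⁰, IsPrimeDivisor B v →
    (∀ b : B, v (algebraMap B K b) < 1 → b ∈ x) →
    ∃ m : ℤ, IsFormOrder k v y m ∧ v h = WithZero.exp (-((r : ℤ) * m))

/-! ### The working data -/

/-- `B` is free over `ℂ[y_1, …, y_n]` with the basis `e`, the polynomial `D ≠ 0` is a
discriminant and `du i / D` is the dual basis. -/
structure Germ (n d : ℕ) (B : Type) [CommRing B] [Algebra ℂ B] where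
  y : Fin n → B
  e : Fin d → B
  cf : B → Fin d → MvPolynomial (Fin n) ℂ
  cf_spec : ∀ b, b = ∑ i, MvPolynomial.aeval y (cf b i) * e i
  cf_unique : ∀ (b : B) (c : Fin d → MvPolynomial (Fin n) ℂ),
    b = ∑ i, MvPolynomial.aeval y (c i) * e i → c = cf b
  D : MvPolynomial (Fin n) ℂ
  D_ne : D ≠ 0
  du : Fin d → B
  du_tr : ∀ i j, ∑ k, cf (du i * e j * e k) k = if i = j then D else 0
  card : ∀ w, MvPolynomial.eval w D ≠ 0 → {χ : Pt B | proj y χ = w}.ncard = d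
  du_spec : ∀ w, MvPolynomial.eval w D ≠ 0 → ∀ χ χ' : Pt B, proj y χ = w → proj y χ' = w →
    (χ = χ' → ∑ i, χ (du i) * χ' (e i) = MvPolynomial.eval w D) ∧
    (χ ≠ χ' → ∑ i, χ (du i) * χ' (e i) = 0)

/-- `∑ |w_j|²` -/
noncomputable def nq {n : ℕ} (w : Fin n → ℂ) : ℝ := ∑ j, ‖w j‖ ^ 2

/-- `sg ∈ B` is idempotent modulo `(y)^m` and separates `x` from the other points over `0`. -/
structure IsSep {n d : ℕ} {B : Type} [CommRing B] [Algebra ℂ B] (G : Germ n d B) (x : Pt B)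
    (m : ℕ) (sg : B) : Prop where
  x_y : proj G.y x = 0
  x_sg : x sg = 1
  idem : sg ^ 2 - sg ∈ Ideal.span (Set.range G.y) ^ m
  nil : ∀ b, x b = 0 → ∃ L : ℕ, b ^ L * sg ∈ Ideal.span (Set.range G.y)

/-- The open ball of radius `ρ`. -/
def bal (n : ℕ) (ρ : ℝ) : Set (Fin n → ℂ) := {w | nq w < ρ ^ 2}

/-- The part near `x` of the preimage of the ball of radius `ρ` minus `{Q = 0}`. -/
def VV {n d : ℕ} {B : Type} [CommRing B] [Algebra ℂ B] (G : Germ n d B) (sg : B)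
    (Q : (Fin n → ℂ) → ℂ) (ρ : ℝ) : Set (Pt B) :=
  {χ | nq (proj G.y χ) < ρ ^ 2 ∧ Q (proj G.y χ) ≠ 0 ∧ ‖χ sg - 1‖ < 1 / 2}

/-- `Q` is holomorphic on the ball, not identically zero, and it vanishes where `D` vanishes. -/
structure IsQ {n d : ℕ} {B : Type} [CommRing B] [Algebra ℂ B] (G : Germ n d B)
    (Q : (Fin n → ℂ) → ℂ) (ρ : ℝ) : Prop where
  pos : 0 < ρ
  holo : DifferentiableOn ℂ Q (bal n ρ)
  ne : ∃ w ∈ bal n ρ, Q w ≠ 0
  D_ne : ∀ w ∈ bal n ρ, Q w ≠ 0 → MvPolynomial.eval w G.D ≠ 0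

/-- The integral of `F` over `S` with respect to `|dy_1 ∧ … ∧ dy_n|²`. -/
noncomputable def sumI {n d : ℕ} {B : Type} [CommRing B] [Algebra ℂ B] (G : Germ n d B)
    (S : Set (Pt B)) (F : Pt B → ℝ≥0∞) : ℝ≥0∞ :=
  ∫⁻ w : Fin n → ℂ, ∑' χ : {χ : Pt B // χ ∈ S ∧ proj G.y χ = w}, F χ

/-- A smooth cut-off function: `0` for `t ≤ 1`, `1` for `t ≥ 4`. -/
noncomputable def cutf (t : ℝ) : ℝ := Real.smoothTransition ((t - 1) / 3)

/-- The part near `x` of the preimage of the ball of radius `ρ`. -/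
def UU {n d : ℕ} {B : Type} [CommRing B] [Algebra ℂ B] (G : Germ n d B) (sg : B)
    (ρ : ℝ) : Set (Pt B) :=
  {χ | nq (proj G.y χ) < ρ ^ 2 ∧ ‖χ sg - 1‖ < 1 / 2}

/-- `s` is a holomorphic section of `(y_1, …, y_n)` over the open set `Ω` with values in `V`. -/
structure IsSec {n d : ℕ} {B : Type} [CommRing B] [Algebra ℂ B] (G : Germ n d B) (V : Set (Pt B))
    (Ω : Set (Fin n → ℂ)) (s : (Fin n → ℂ) → Pt B) : Prop where
  isOpen : IsOpen Ω
  mem : ∀ w ∈ Ω, s w ∈ V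
  proj : ∀ w ∈ Ω, proj G.y (s w) = w
  holo : ∀ b : B, DifferentiableOn ℂ (fun w => s w b) Ω

/-- `Z` is holomorphic on `V`. -/
def HolV {n d : ℕ} {B : Type} [CommRing B] [Algebra ℂ B] (G : Germ n d B) (V : Set (Pt B))
    (Z : Pt B → ℂ) : Prop :=
  ∀ Ω s, IsSec G V Ω s → DifferentiableOn ℂ (fun w => Z (s w)) Ω

/-- `F` vanishes at the point `χ` to the weighted order at least `N`, where `y_j - χ(y_j)` has the
weight `a_j`. -/
def VanAt {n d : ℕ} {B : Type} [CommRing B] [Algebra ℂ B] (G : Germ n d B) (a : Fin n → ℕ)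
    (N : ℕ) (χ : Pt B) (F : B) : Prop :=
  ∃ t : B, χ t ≠ 0 ∧ t * F ∈ Ideal.span {b | ∃ m : Fin n → ℕ, N ≤ ∑ j, a j * m j ∧
    b = ∏ j, (G.y j - algebraMap ℂ B (χ (G.y j))) ^ m j}

/-- A sequence of pairs of distinct points in the fibres over `q ν → 0`, both tending to `x`. -/
structure Pts {n d : ℕ} {B : Type} [CommRing B] [Algebra ℂ B] (G : Germ n d B) (x : Pt B) where
  q : ℕ → Fin n → ℂ
  p : Fin 2 → ℕ → Pt B
  proj_p : ∀ i ν, proj G.y (p i ν) = q ν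
  D_ne : ∀ ν, MvPolynomial.eval (q ν) G.D ≠ 0
  ne : ∀ ν, p 0 ν ≠ p 1 ν
  tendsto_q : Filter.Tendsto q Filter.atTop (nhds 0)
  tendsto_p : ∀ i b, Filter.Tendsto (fun ν => p i ν b) Filter.atTop (nhds (x b))

/-- `F ν → F∞` in `B`, along a nonprincipal ultrafilter: the coefficients converge and the degrees
are bounded. -/
def TendsB {n d : ℕ} {B : Type} [CommRing B] [Algebra ℂ B] (G : Germ n d B) (F : ℕ → B)
    (F' : B) : Prop :=
  ∃ Λ : Finset (Fin n →₀ ℕ), (∀ᶠ ν in (Filter.hyperfilter ℕ : Filter ℕ), ∀ i,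
      (G.cf (F ν) i).support ⊆ Λ) ∧
    ∀ i m, Filter.Tendsto (fun ν => (G.cf (F ν) i).coeff m) (Filter.hyperfilter ℕ : Filter ℕ)
      (nhds ((G.cf F' i).coeff m))

/-- The limit `J_N` of the ideals of the functions vanishing to the weighted order `N` at the two
points `p 0 ν`, `p 1 ν`. -/
def JJ {n d : ℕ} {B : Type} [CommRing B] [Algebra ℂ B] {G : Germ n d B} {x : Pt B} (p : Pts G x)
    (a : Fin n → ℕ) (N : ℕ) : Set B :=
  {F' | ∃ F : ℕ → B, (∀ᶠ ν in (Filter.hyperfilter ℕ : Filter ℕ), ∀ i, VanAt G a N (p.p i ν) (F ν)) ∧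
    TendsB G F F'}

/-- The ideal `J_N` (it is equal to `JJ`, see `mem_JI`). -/
def JI {n d : ℕ} {B : Type} [CommRing B] [Algebra ℂ B] {G : Germ n d B} {x : Pt B} (p : Pts G x)
    (a : Fin n → ℕ) (N : ℕ) : Ideal B := Ideal.span (JJ p a N)

/-- The weights `(1, …, 1)`. -/
def one (n : ℕ) : Fin n → ℕ := fun _ => 1

end Pool.Agent.Odp2
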